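import Pool.Agent.W434.BW.StmA

/-! BW-Z: centers are ternary absorbing -/

set_option autoImplicit false

namespace Pool.Agent.W701.BW

open Pool.Agent.W434.BW

theorem zz (h1 : S_tr) (h2 : S_cen) (h3 : S_z1) (h4 : S_z2) (h5 : S_z3) : S_Z := by
  intro Ω ar u X Y _ _ a b R ha hb hR hext hB
  have hC : Sub a {x | ∀ y, R x y} := by
    intro ω x hx y
    have := hR ω x (fun _ => y) (fun i => hx i y)
    rwa [hb.1 ω y] at this
  refine ⟨hC, ?_⟩
  obtain ⟨ι, hι, T, hT⟩ := h1 Ω ar u Y b hb hB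
  have hA : AbsT a T {x | ∀ y, R x y} := h2 Ω ar X Y a b R ι T hR hext hT
  apply h5 Ω ar X a _ hC
  intro S
  apply h4 Ω ar X a _ ι T ha.1 hC hA _ (Fin 3) S
  · simp
  · intro x hx
    exact h3 Ω ar X Y a b R ha.1 hR hext hB x hx

end Pool.Agent.W701.BW
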